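import Mathlib
import Pool.Agent.Lib.MP_2c654c_co.Abs.Glue

set_option autoImplicit false

namespace Pool.Agent.Lib.MP_2c654c_co.Syl

open Finset Pool.Agent.Lib.MP_2c654c_co.Abs

variable {G : Type} [Group G] [Fintype G] [DecidableEq G]

/-- a transition system on at most three labels, avoiding the identity -/
def Mini (T E : Finset G) : Prop :=
  (∃ θ, Part T E θ) ∧ T.card = E.card ∧ T.card ≤ 3 ∧ 1 ∉ T ∧ 1 ∉ E

omit [DecidableEq G] in
theorem exists_chi' (K : Subgroup G) {t : G} (ht : t * t = 1) (hc : ∀ k ∈ K, k * t = t * k)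
    (htK : t ∉ K) : ∃ χ : G → Prop, ∀ x, ∀ k ∈ K, (χ (x * (t * k)) ↔ ¬ χ x) := by
  let N : G ⧸ K → ℕ := fun q => (Finite.equivFin (G ⧸ K) q : ℕ)
  have hN : Function.Injective N := fun p q h => (Finite.equivFin (G ⧸ K)).injective (Fin.ext h)
  refine ⟨fun x => N x < N (x * t : G), fun x k hk => ?_⟩
  have c := hc k hk
  have q1 : ((x * (t * k) : G) : G ⧸ K) = (x * t : G) := by
    rw [eq_comm, QuotientGroup.eq]; simpa [mul_assoc] using hk
  have q2 : ((x * (t * k) * t : G) : G ⧸ K) = (x : G) := by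
    rw [eq_comm, QuotientGroup.eq, mul_assoc, inv_mul_cancel_left, mul_assoc, c, ← mul_assoc, ht,
      one_mul]
    exact hk
  have q3 : N x ≠ N (x * t : G) := fun h => htK (by
    have := QuotientGroup.eq.1 (hN h)
    rwa [inv_mul_cancel_left] at this)
  simp only [q1, q2]
  omega

theorem tri (K : Subgroup G) {g e t : G} (he : e * e = 1) (ht : t * t = 1) (hge : e * g = g * e)
    (hc : ∀ k ∈ K, k * t = t * k) (htK : t ∉ K) (gK : g ∈ K) (eK : e ∈ K) (g1 : g ≠ 1)
    (e1 : e ≠ 1) (ge : g ≠ e) : Mini {t, t * g, t * e} {g, g * e, e} := by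
  classical
  obtain ⟨χ, hχ⟩ := exists_chi' K ht hc htK
  have e3 : ∀ x, g * (t * x) = t * (g * x) := fun x => by rw [← mul_assoc, hc g gK, mul_assoc]
  have e4 : ∀ x, e * (t * x) = t * (e * x) := fun x => by rw [← mul_assoc, hc e eK, mul_assoc]
  have e5 : ∀ x, t * (t * x) = x := fun x => by rw [← mul_assoc, ht, one_mul]
  have d1 : ∀ x, χ (x * t) ↔ ¬ χ x := fun x => by simpa using hχ x 1 K.one_mem
  have d2 : ∀ x, χ (x * (t * g)) ↔ ¬ χ x := fun x => hχ x _ gK
  have d3 : ∀ x, χ (x * (t * e)) ↔ ¬ χ x := fun x => hχ x _ eK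
  let s : G → G := fun u => if u = t then t * e else if u = t * e then t * g else t
  let s' : G → G := fun u => if u = t then t * g else if u = t * g then t * e else t
  have s1 : s t = t * e := by simp [s]
  have s2 : s (t * e) = t * g := by simp [s, e1]
  have s3 : s (t * g) = t := by simp [s, g1, ge]
  have s4 : s' t = t * g := by simp [s']
  have s5 : s' (t * g) = t * e := by simp [s', g1]
  have s6 : s' (t * e) = t := by simp [s', e1, ge.symm]
  have p1 : t * (t * e) = e := e5 e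
  have p2 : t * e * (t * g) = g * e := by simp [mul_assoc, e4, e5, hge]
  have p3 : t * g * t = g := by rw [mul_assoc, hc g gK, e5]
  have p4 : t * (t * g) = g := e5 g
  have p5 : t * g * (t * e) = g * e := by simp [mul_assoc, e3, e5]
  have p6 : t * e * t = e := by rw [mul_assoc, hc e eK, e5]
  have ti : t⁻¹ = t := inv_eq_of_mul_eq_one_right ht
  have n1 : ∀ k ∈ K, 1 ≠ t * k := fun k hk h => htK (by
    rw [eq_inv_of_mul_eq_one_left h.symm]; exact K.inv_mem hk)
  have n2 : 1 ≠ g * e := fun h => ge (by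
    rw [eq_inv_of_mul_eq_one_left h.symm]; exact inv_eq_of_mul_eq_one_right he)
  refine ⟨⟨fun x u => if χ x then s u else s' u, fun x => ⟨fun u hu => ?_, fun u hu f hf hef => ?_⟩⟩,
    ?_, card_le_three, ?_, ?_⟩
  · simp only [mem_insert, mem_singleton] at hu
    by_cases hx : χ x <;> rcases hu with hu | hu | hu <;> rw [hu] <;>
      simp only [hx, d1, d2, d3, s1, s2, s3, s4, s5, s6, p1, p2, p3, p4, p5, p6, if_true, if_false,
        not_true, not_false_iff, mem_insert, mem_singleton, true_or, or_true, and_self]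
  · simp only [coe_insert, coe_singleton, Set.mem_insert_iff, Set.mem_singleton_iff] at hu hf
    by_cases hx : χ x <;> rcases hu with hu | hu | hu <;> rcases hf with hf | hf | hf <;>
      rw [hu, hf] at hef <;> rw [hu, hf] <;>
      simp only [hx, s1, s2, s3, s4, s5, s6, p1, p2, p3, p4, p5, p6, if_true, if_false] at hef <;>
      (exfalso; simp [g1, e1, ge, ge.symm] at hef)
  · rw [card_eq_three.2 ⟨_, _, _, by simpa using g1, by simpa using e1, by simpa using ge, rfl⟩,
      card_eq_three.2 ⟨_, _, _, by simpa using e1, ge, by simpa using g1, rfl⟩]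
  · have := n1 1 K.one_mem
    simp only [mem_insert, mem_singleton, not_or]
    exact ⟨by simpa using this, n1 g gK, n1 e eK⟩
  · simp only [mem_insert, mem_singleton, not_or]
    exact ⟨g1.symm, n2, e1.symm⟩

omit [Fintype G] [DecidableEq G] in
theorem loop {r : G} (h : r * r ≠ 1) : Mini {r} {r * r} := by
  refine ⟨⟨fun _ u => u, fun _ => ⟨fun u hu => ?_, by simp⟩⟩, by simp, by simp, ?_, ?_⟩
  · rw [mem_singleton.1 hu]; simp
  · rw [mem_singleton]; rintro rfl; simp at h
  · rw [mem_singleton]; exact h.symm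

omit [Fintype G] in
theorem Mini.conj {T E : Finset G} (h : Mini T E) (c : G) :
    Mini (T.image fun u => c⁻¹ * u * c) (E.image fun u => c⁻¹ * u * c) := by
  obtain ⟨⟨θ, h1⟩, h2, h3, h4, h5⟩ := h
  have hi : Function.Injective fun u : G => c⁻¹ * u * c := fun u v huv => by simpa using huv
  have h0 : ∀ S : Finset G, 1 ∉ S → 1 ∉ S.image fun u => c⁻¹ * u * c := fun S hS h => by
    obtain ⟨u, hu, h⟩ := mem_image.1 h
    have : u = 1 := hi (by simpa using h)
    exact hS (this ▸ hu)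
  refine ⟨⟨fun x u => c⁻¹ * θ (x * c⁻¹) (c * u * c⁻¹) * c, fun x => ⟨fun u hu => ?_, ?_⟩⟩,
    by rw [card_image_of_injective _ hi, card_image_of_injective _ hi, h2],
    card_image_le.trans h3, h0 _ h4, h0 _ h5⟩
  · obtain ⟨v, hv, rfl⟩ := mem_image.1 hu
    obtain ⟨a1, a2, a3⟩ := (h1 (x * c⁻¹)).1 v hv
    have b1 : ∀ w : G, c * (c⁻¹ * w * c) * c⁻¹ = w := fun w => by group
    have b2 : x * (c⁻¹ * v * c) * c⁻¹ = x * c⁻¹ * v := by group
    simp only [b1, b2, a2]
    refine ⟨mem_image_of_mem _ a1, trivial, mem_image.2 ⟨_, a3, by group⟩⟩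
  · intro u hu v hv huv
    obtain ⟨u', hu', rfl⟩ := mem_image.1 (mem_coe.1 hu)
    obtain ⟨v', hv', rfl⟩ := mem_image.1 (mem_coe.1 hv)
    have b1 : ∀ w : G, c * (c⁻¹ * w * c) * c⁻¹ = w := fun w => by group
    have b3 : ∀ w y : G, c⁻¹ * w * c * (c⁻¹ * y * c) = c⁻¹ * (w * y) * c := fun w y => by group
    simp only [b1, b3] at huv
    rw [(h1 (x * c⁻¹)).2 hu' hv' (hi huv)]

theorem avoid (U S : Finset G) {B : ℕ} (h1 : 1 ∉ U) (hB : ∀ a : G, a ≠ 1 → zc a ≤ B)
    (h : U.card * (B * S.card) < Fintype.card G) : ∃ c : G, ∀ u ∈ U, c⁻¹ * u * c ∉ S := by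
  by_contra hc
  push Not at hc
  have h2 : (univ : Finset G) ⊆ U.biUnion fun u => univ.filter fun c => c⁻¹ * u * c ∈ S :=
    fun c _ => by
      obtain ⟨u, a1, a2⟩ := hc c
      exact mem_biUnion.2 ⟨u, a1, mem_filter.2 ⟨mem_univ _, a2⟩⟩
  have h3 := (card_le_card h2).trans (card_biUnion_le_card_mul _ _ (B * S.card) fun u hu =>
    (cc_card_le u S).trans (Nat.mul_le_mul_right _ (hB u fun h => h1 (h ▸ hu))))
  rw [card_univ] at h3
  omega

theorem card_conj (E : Finset G) (c a : G) :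
    ((E.image fun u => c⁻¹ * u * c) ∩ cl a).card = (E ∩ cl a).card := by
  have hi : Function.Injective fun u : G => c⁻¹ * u * c := fun u v huv => by simpa using huv
  rw [← card_image_of_injective (E ∩ cl a) hi]
  congr 1
  ext y
  simp only [mem_inter, mem_image]
  constructor
  · rintro ⟨⟨u, hu, rfl⟩, h⟩
    exact ⟨u, ⟨hu, cl_trans h (cl_symm (cj_mem_cl u c))⟩, rfl⟩
  · rintro ⟨u, ⟨hu, h⟩, rfl⟩
    exact ⟨⟨u, hu, rfl⟩, cl_trans h (cj_mem_cl u c)⟩

theorem glue {ι : Type} [DecidableEq ι] (T E : ι → Finset G) {B N : ℕ}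
    (hB : ∀ a : G, a ≠ 1 → zc a ≤ B) (hN : 36 * (B * N) < Fintype.card G) (I : Finset ι) :
    (∀ i ∈ I, Mini (T i) (E i)) → I.card ≤ N → ∃ T' E' θ, Part T' E' θ ∧ T'.card = E'.card ∧
      T'.card ≤ 3 * I.card ∧ 1 ∉ T' ∧ 1 ∉ E' ∧
      ∀ a, (E' ∩ cl a).card = ∑ i ∈ I, (E i ∩ cl a).card := by
  induction I using Finset.induction_on with
  | empty =>
    intro _ _
    exact ⟨∅, ∅, fun _ u => u, fun _ => ⟨by simp, by simp⟩, by simp, by simp, by simp, by simp,
      by simp⟩
  | insert i I hi ih =>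
    intro h hc
    rw [card_insert_of_notMem hi] at hc ⊢
    obtain ⟨T', E', θ, a1, a2, a3, a4, a5, a6⟩ :=
      ih (fun j hj => h j (mem_insert_of_mem hj)) (by omega)
    have hm := h i (mem_insert_self _ _)
    obtain ⟨c, hc'⟩ := avoid (T i ∪ E i) (T' ∪ E') (by
      rw [mem_union, not_or]; exact ⟨hm.2.2.2.1, hm.2.2.2.2⟩) hB (by
      have b1 := card_union_le (T i) (E i)
      have b2 := card_union_le T' E'
      have b3 := hm.2.1
      have b4 := hm.2.2.1
      refine lt_of_le_of_lt ?_ hN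
      calc (T i ∪ E i).card * (B * (T' ∪ E').card) ≤ 6 * (B * (6 * N)) :=
            Nat.mul_le_mul (by omega) (Nat.mul_le_mul_left _ (by omega))
        _ = 36 * (B * N) := by ring)
    obtain ⟨⟨θ', b1⟩, b2, b3, b4, b5⟩ := hm.conj c
    have d1 : Disjoint ((T i).image fun u => c⁻¹ * u * c) T' := disjoint_left.2 fun y hy h' => by
      obtain ⟨u, hu, rfl⟩ := mem_image.1 hy
      exact hc' u (mem_union_left _ hu) (mem_union_left _ h')
    have d2 : Disjoint ((E i).image fun u => c⁻¹ * u * c) E' := disjoint_left.2 fun y hy h' => by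
      obtain ⟨u, hu, rfl⟩ := mem_image.1 hy
      exact hc' u (mem_union_right _ hu) (mem_union_right _ h')
    refine ⟨_, _, _, b1.union a1 d1 d2, ?_, ?_, ?_, ?_, fun a => ?_⟩
    · rw [card_union_of_disjoint d1, card_union_of_disjoint d2, a2, b2]
    · rw [card_union_of_disjoint d1]; omega
    · rw [mem_union, not_or]; exact ⟨b4, a4⟩
    · rw [mem_union, not_or]; exact ⟨b5, a5⟩
    · rw [union_inter_distrib_right, card_union_of_disjoint
        (d2.mono inter_subset_left inter_subset_left), card_conj, a6, sum_insert hi]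

theorem sys_of_minis (W : ℕ) : ∃ δ : ℝ, 0 < δ ∧ ∀ (G : Type) [Group G] [Fintype G] [DecidableEq G],
    Hyp G δ → CW G W → ∀ (I : Finset G) (T E : G → Finset G) (B : ℕ), 0 < B →
      (∀ i ∈ I, Mini (T i) (E i)) → (∀ a : G, a ≠ 1 → zc a ≤ B) →
      (40 * (B * (I.card + 1)) : ℝ) ≤ δ * Fintype.card G →
      (∀ a : G, a ≠ 1 → (cl a).card % 2 = (∑ i ∈ I, (E i ∩ cl a).card) % 2) → Sys G := by
  obtain ⟨δ, hδ, H⟩ := main W
  refine ⟨min δ 1, by positivity, fun G _ _ _ hy hW I T E B hB0 hm hB hI hpar => ?_⟩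
  have hn := npos (G := G)
  have h1 : min δ 1 * Fintype.card G ≤ δ * Fintype.card G :=
    mul_le_mul_of_nonneg_right (min_le_left _ _) hn.le
  have h2 : min δ 1 * Fintype.card G ≤ 1 * Fintype.card G :=
    mul_le_mul_of_nonneg_right (min_le_right _ _) hn.le
  have hB1 : (1 : ℝ) ≤ B := by exact_mod_cast hB0
  have hI0 : (0 : ℝ) ≤ I.card := by positivity
  obtain ⟨T', E', θ, a1, a2, a3, a4, a5, a6⟩ := glue T E hB (N := I.card) (by
    refine (Nat.cast_lt (α := ℝ)).1 ?_
    push_cast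
    nlinarith) I hm le_rfl
  have p0 : Part ({1} : Finset G) {1} fun _ e => e := fun _ => ⟨by simp, by simp⟩
  have d1 : Disjoint {1} T' := disjoint_singleton_left.2 a4
  have d2 : Disjoint {1} E' := disjoint_singleton_left.2 a5
  have c1 : (({1} ∪ E').card : ℝ) ≤ 3 * (I.card + 1) := by
    have := card_union_le {1} E'
    rw [card_singleton] at this
    exact_mod_cast (by omega : ({1} ∪ E').card ≤ 3 * (I.card + 1))
  have c2 : ({1} ∪ T').card = ({1} ∪ E').card := by
    rw [card_union_of_disjoint d1, card_union_of_disjoint d2, a2]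
  refine sys_of_pm (p0.union a1 d1 d2) (H G (hy.mono (min_le_left _ _)) hW _ _
    (by simp) (by simp) c2 ?_ (fun a ha => ?_) fun a => ?_)
  · rw [c2]; nlinarith
  · have b1 := (Nat.cast_le (α := ℝ)).2
      ((cc_card_le a ({1} ∪ E')).trans (Nat.mul_le_mul_right _ (hB a ha)))
    push_cast at b1
    nlinarith
  · by_cases ha : a = 1
    · rw [ha, cl_one, card_eq_zero.2 (by ext y; simp)]
      exact Even.zero
    · have b1 : (univ \ ({1} ∪ E')) ∩ cl a = cl a \ (E' ∩ cl a) := by
        ext y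
        simp only [mem_inter, mem_sdiff, mem_univ, true_and, mem_union, mem_singleton]
        constructor
        · tauto
        · rintro ⟨y1, y2⟩
          exact ⟨fun h => h.elim (ne_one_of_cl y1 ha) fun h => y2 ⟨h, y1⟩, y1⟩
      have b2 := card_sdiff_add_card_eq_card (inter_subset_right (s₁ := E') (s₂ := cl a))
      have b3 := hpar a ha
      rw [← a6] at b3
      rw [b1, Nat.even_iff]
      omega

end Pool.Agent.Lib.MP_2c654c_co.Syl
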