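import Mathlib
import Pool.Agent.Lib.MP_2c654c_co.Syl.Tri

set_option autoImplicit false

namespace Pool.Agent.Lib.MP_2c654c_co.Syl

open Finset Pool.Agent.Lib.MP_2c654c_co.Abs

variable {G : Type} [Group G] [Fintype G] [DecidableEq G]

omit [Group G] [DecidableEq G] in
theorem pairs (S : Finset G) (σ : G → G) (h1 : ∀ x, σ (σ x) = x) (h2 : ∀ x, σ x ≠ x)
    (h3 : ∀ x ∈ S, σ x ∈ S) :
    ∃ R ⊆ S, ∀ f : G → ℕ, ∑ x ∈ S, f x = ∑ x ∈ R, (f x + f (σ x)) := by
  let N : G → ℕ := fun q => (Finite.equivFin G q : ℕ)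
  have hN : Function.Injective N := fun p q h => (Finite.equivFin G).injective (Fin.ext h)
  refine ⟨S.filter fun x => N x < N (σ x), filter_subset _ _, fun f => ?_⟩
  rw [sum_add_distrib, ← sum_filter_add_sum_filter_not S (fun x => N x < N (σ x))]
  congr 1
  refine sum_nbij' σ σ (fun x hx => ?_) (fun x hx => ?_) (fun x _ => h1 x) (fun x _ => h1 x)
    fun x _ => by rw [h1]
  · obtain ⟨a, b⟩ := mem_filter.1 hx
    refine mem_filter.2 ⟨h3 x a, ?_⟩
    have : N (σ x) ≠ N x := fun h => h2 x (hN h)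
    rw [h1]; omega
  · obtain ⟨a, b⟩ := mem_filter.1 hx
    refine mem_filter.2 ⟨h3 x a, ?_⟩
    rw [h1]; omega

theorem class_par (P : Subgroup G) (hP : IsPGroup 2 P) (Q : Finset G)
    (hQ : ∀ x, x ∈ Q ↔ ∀ p ∈ P, p * x = x * p) (a : G) :
    (cl a).card % 2 = (Q ∩ cl a).card % 2 := by
  let _ : MulAction P (cl a) :=
    { smul := fun p x => ⟨(p : G) * x * (p : G)⁻¹, cl_trans x.2 (by
        simpa using cj_mem_cl (x : G) (p : G)⁻¹)⟩
      one_smul := fun x => Subtype.ext (by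
        show ((1 : P) : G) * x * ((1 : P) : G)⁻¹ = x
        simp)
      mul_smul := fun p q x => Subtype.ext (by
        show ((p * q : P) : G) * x * ((p * q : P) : G)⁻¹ =
          (p : G) * ((q : G) * x * (q : G)⁻¹) * (p : G)⁻¹
        simp [mul_assoc]) }
  have h := hP.card_modEq_card_fixedPoints (cl a)
  have e : Nat.card (MulAction.fixedPoints P (cl a)) = Nat.card (Q ∩ cl a : Finset G) := by
    refine Nat.card_congr ⟨fun x => ⟨x.1.1, mem_inter.2 ⟨(hQ _).2 fun p hp => ?_, x.1.2⟩⟩,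
      fun x => ⟨⟨x.1, (mem_inter.1 x.2).2⟩, fun p => Subtype.ext ?_⟩, fun _ => rfl, fun _ => rfl⟩
    · have : p * x.1.1 * p⁻¹ = x.1.1 := congrArg Subtype.val (x.2 ⟨p, hp⟩)
      rw [← mul_inv_eq_iff_eq_mul]; exact this
    · show (p : G) * x.1 * (p : G)⁻¹ = x.1
      rw [mul_inv_eq_iff_eq_mul]
      exact (hQ _).1 (mem_inter.1 x.2).1 p p.2
  rw [e, Nat.card_eq_fintype_card, Nat.card_eq_fintype_card, Fintype.card_coe,
    Fintype.card_coe] at h
  exact h

omit [DecidableEq G] in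
theorem one_inv (g : G) : ∃ j : G, ∀ i : ℤ, g ^ i * g ^ i = 1 → g ^ i = 1 ∨ g ^ i = j := by
  classical
  by_cases h : ∃ i : ℤ, g ^ i * g ^ i = 1 ∧ g ^ i ≠ 1
  · obtain ⟨k, h1, h2⟩ := h
    refine ⟨g ^ k, fun i hi => ?_⟩
    by_contra hc
    push Not at hc
    have h3 := IsCyclic.card_pow_eq_one_le (α := Subgroup.zpowers g) (n := 2) (by norm_num)
    have h4 : ({1, ⟨g ^ k, k, rfl⟩, ⟨g ^ i, i, rfl⟩} : Finset (Subgroup.zpowers g)) ⊆
        univ.filter fun a => a ^ 2 = 1 := by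
      intro y hy
      simp only [mem_insert, mem_singleton] at hy
      rcases hy with rfl | rfl | rfl <;> simp [sq, Subtype.ext_iff, h1, hi]
    have h5 := card_le_card h4
    rw [card_eq_three.2 ⟨_, _, _, fun h => h2 (congrArg Subtype.val h).symm,
      fun h => hc.1 (congrArg Subtype.val h).symm,
      fun h => hc.2 (congrArg Subtype.val h).symm, rfl⟩] at h5
    omega
  · push Not at h
    exact ⟨1, fun i hi => Or.inl (h i hi)⟩

theorem exists_t {g e : G} (he : e * e = 1) (hge : e * g = g * e) (J : Finset G)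
    (hJ : ∀ t ∈ J, t * t = 1 ∧ t ≠ 1) (h3 : 3 < J.card) :
    ∃ t ∈ J, ∃ K : Subgroup G, g ∈ K ∧ e ∈ K ∧ t ∉ K ∧
      (g * t = t * g → e * t = t * e → ∀ k ∈ K, k * t = t * k) := by
  obtain ⟨j, hj⟩ := one_inv g
  have c : ∀ i : ℤ, e * g ^ i = g ^ i * e := fun i => (Commute.zpow_right hge i).eq
  have c1 : ∀ (i : ℤ) (x : G), e * (g ^ i * x) = g ^ i * (e * x) := fun i x => by
    rw [← mul_assoc, c, mul_assoc]
  have ei : e⁻¹ = e := inv_eq_of_mul_eq_one_right he
  let K : Subgroup G :=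
    { carrier := {x | ∃ i : ℤ, x = g ^ i ∨ x = g ^ i * e}
      one_mem' := ⟨0, Or.inl (by simp)⟩
      mul_mem' := by
        rintro x y ⟨i, rfl | rfl⟩ ⟨k, rfl | rfl⟩ <;> refine ⟨i + k, ?_⟩ <;>
          simp [zpow_add, mul_assoc, c, c1, he]
      inv_mem' := by
        rintro x ⟨i, rfl | rfl⟩
        · exact ⟨-i, Or.inl (by simp)⟩
        · exact ⟨-i, Or.inr (by rw [mul_inv_rev, ei, ← zpow_neg, c])⟩ }
  obtain ⟨t, t1, t2⟩ := exists_mem_notMem_of_card_lt_card
    (lt_of_le_of_lt (card_le_three (a := j) (b := e) (c := j * e)) h3)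
  simp only [mem_insert, mem_singleton, not_or] at t2
  refine ⟨t, t1, K, ⟨1, Or.inl (by simp)⟩, ⟨0, Or.inr (by simp)⟩, ?_, fun a1 a2 => ?_⟩
  · obtain ⟨b1, b2⟩ := hJ t t1
    rintro ⟨i, rfl | rfl⟩
    · exact (hj i b1).elim b2 t2.1
    · rw [mul_assoc, c1, he, mul_one] at b1
      rcases hj i b1 with h | h
      · exact t2.2.1 (by rw [h, one_mul])
      · exact t2.2.2 (by rw [h])
  · have b1 : ∀ i : ℤ, g ^ i * t = t * g ^ i := fun i => (Commute.zpow_left a1 i).eq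
    rintro k ⟨i, rfl | rfl⟩
    · exact b1 i
    · rw [mul_assoc, a2, ← mul_assoc, b1, mul_assoc]

omit [DecidableEq G] in
theorem central_inv (P : Subgroup G) (hP : IsPGroup 2 P) {t : G} (ht : t ∈ P) (t1 : t ≠ 1) :
    ∃ e ∈ P, e ≠ 1 ∧ e * e = 1 ∧ ∀ p ∈ P, p * e = e * p := by
  have : Nontrivial P := ⟨⟨⟨t, ht⟩, 1, fun h => t1 (congrArg Subtype.val h)⟩⟩
  have h1 := hP.center_nontrivial
  obtain ⟨n, hn, h2⟩ := (hP.to_subgroup (Subgroup.center P)).nontrivial_iff_card.1 h1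
  obtain ⟨x, hx⟩ := exists_prime_orderOf_dvd_card' (G := Subgroup.center P) 2
    (h2 ▸ dvd_pow_self 2 hn.ne')
  have h3 : x * x = 1 := by rw [← sq, ← hx, pow_orderOf_eq_one]
  refine ⟨x.1.1, x.1.2, fun h => ?_, congrArg (fun y => y.1.1) h3, fun p hp =>
    congrArg Subtype.val (Subgroup.mem_center_iff.1 x.2 ⟨p, hp⟩)⟩
  have : x = 1 := Subtype.ext (Subtype.ext h)
  simp [this] at hx

omit [DecidableEq G] in
theorem second_centre (P : Subgroup G) (hP : IsPGroup 2 P) {t s : G} (ht : t ∈ P) (hs : s ∈ P)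
    (hts : s * t ≠ t * s) : ∃ b ∈ P, (∃ p ∈ P, p * b ≠ b * p) ∧
      ∀ p ∈ P, ∀ q ∈ P, q * (b⁻¹ * p⁻¹ * b * p) = b⁻¹ * p⁻¹ * b * p * q := by
  have : Nontrivial (P ⧸ Subgroup.center P) := ⟨⟨(⟨t, ht⟩ : P), 1, fun h => hts (congrArg
    Subtype.val (Subgroup.mem_center_iff.1 ((QuotientGroup.eq_one_iff _).1 h) ⟨s, hs⟩))⟩⟩
  have h1 := (hP.to_quotient (Subgroup.center P)).center_nontrivial
  obtain ⟨⟨x, hx⟩, x1⟩ := exists_ne (1 : Subgroup.center (P ⧸ Subgroup.center P))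
  obtain ⟨b, rfl⟩ := QuotientGroup.mk_surjective x
  refine ⟨b, b.2, ?_, fun p hp q hq => ?_⟩
  · by_contra h
    push Not at h
    exact x1 (Subtype.ext ((QuotientGroup.eq_one_iff _).2
      (Subgroup.mem_center_iff.2 fun p => Subtype.ext (h p p.2))))
  · have h2 := Subgroup.mem_center_iff.1 hx ((⟨p, hp⟩ : P) : P ⧸ Subgroup.center P)
    rw [← QuotientGroup.mk_mul, ← QuotientGroup.mk_mul, QuotientGroup.eq] at h2
    have h3 := congrArg Subtype.val (Subgroup.mem_center_iff.1 h2 ⟨q, hq⟩)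
    simpa [mul_assoc] using h3

omit [Group G] [Fintype G] in
theorem card_three {a b c : G} (h1 : a ≠ b) (h2 : a ≠ c) (h3 : b ≠ c) (C : Finset G) :
    ({a, b, c} ∩ C).card =
      (if a ∈ C then 1 else 0) + (if b ∈ C then 1 else 0) + if c ∈ C then 1 else 0 := by
  rw [← filter_mem_eq_inter, card_filter, sum_insert (by simp [h1, h2]),
    sum_insert (by simp [h3]), sum_singleton, add_assoc]

theorem extra (P : Subgroup G) (hP : IsPGroup 2 P) (J : Finset G)
    (hJ : ∀ t ∈ J, t * t = 1 ∧ t ≠ 1) (hJP : ∀ t ∈ J, t ∈ P) (h3 : 3 < J.card) {e : G}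
    (e1 : e ≠ 1) (he : e * e = 1) (hc : ∀ p ∈ P, p * e = e * p)
    (hZ : ∀ z ∈ P, (∀ p ∈ P, p * z = z * p) → z = 1 ∨ z = e) :
    ∃ T E : Finset G, Mini T E ∧ ∀ a, (E ∩ cl a).card % 2 = if e ∈ cl a then 1 else 0 := by
  by_cases hsq : ∃ r, r * r = e
  · obtain ⟨r, rfl⟩ := hsq
    refine ⟨_, _, loop e1, fun a => ?_⟩
    split_ifs with h
    · rw [singleton_inter_of_mem h]; simp
    · rw [singleton_inter_of_notMem h]; simp
  push Not at hsq
  obtain ⟨t, t1, t2⟩ := exists_mem_notMem_of_card_lt_card (s := {e}) (t := J) (by simp; omega)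
  obtain ⟨s, s1, s2⟩ : ∃ s ∈ P, s * t ≠ t * s := by
    by_contra h
    push Not at h
    exact (hZ t (hJP t t1) h).elim (hJ t t1).2 (by simpa using t2)
  obtain ⟨b, b1, ⟨p, p1, p2⟩, b2⟩ := second_centre P hP (hJP t t1) s1 s2
  have b3 : ∀ q ∈ P, b * q = q * b ∨ b * q = q * b * e := fun q hq => by
    rcases hZ _ (P.mul_mem (P.mul_mem (P.mul_mem (P.inv_mem b1) (P.inv_mem hq)) b1) hq)
      (b2 q hq) with h | h
    · left; calc b * q = q * b * (b⁻¹ * q⁻¹ * b * q) := by group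
        _ = q * b := by rw [h, mul_one]
    · right; rw [← h]; group
  have hb := hc b b1
  have b4 : b * b = 1 := by
    refine (hZ _ (P.mul_mem b1 b1) fun q hq => ?_).resolve_right (hsq b)
    rcases b3 q hq with h | h
    · rw [mul_assoc, h, ← mul_assoc b, h, mul_assoc]
    · rw [mul_assoc b, h, ← mul_assoc b, ← mul_assoc b, h, mul_assoc _ e b, ← hb, mul_assoc,
        mul_assoc b e, he, mul_one, mul_assoc]
  have b5 : b ≠ 1 := by rintro rfl; simp at p2
  have b6 : b ≠ e := by rintro rfl; exact p2 (hc p p1)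
  have b7 : b * e ∈ cl b := mem_cl.2 ⟨p, by
    rw [mul_assoc, (b3 p p1).resolve_left p2.symm]; group⟩
  obtain ⟨u, u1, K, k1, k2, k3, k4⟩ := exists_t he hb.symm J hJ h3
  have u2 : b * u = u * b := (b3 u (hJP u u1)).resolve_right fun h => hsq (u * b) (by
    rw [mul_assoc, ← mul_assoc b, h, mul_assoc _ e b, ← hb, mul_assoc u b, ← mul_assoc b b, b4,
      one_mul, ← mul_assoc, (hJ u u1).1, one_mul])
  refine ⟨_, _, tri K he (hJ u u1).1 hb.symm (k4 u2 (hc u (hJP u u1)).symm) k3 k1 k2 b5 e1 b6,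
    fun a => ?_⟩
  rw [card_three (by simpa using e1) b6 (by simpa using b5)]
  have b8 : b * e ∈ cl a ↔ b ∈ cl a := ⟨fun h => cl_trans h (cl_symm b7), fun h => cl_trans h b7⟩
  simp only [b8]
  split_ifs <;> rfl

theorem family (P : Subgroup G) (hP : IsPGroup 2 P) (J : Finset G)
    (hJ : ∀ t ∈ J, t * t = 1 ∧ t ≠ 1) (hJP : ∀ t ∈ J, t ∈ P) (h3 : 3 < J.card) :
    ∃ (I : Finset G) (T E : G → Finset G), (∀ i ∈ I, Mini (T i) (E i)) ∧
      I.card + 1 ≤ Nat.card (Subgroup.centralizer (P : Set G)) ∧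
      ∀ a : G, a ≠ 1 → (cl a).card % 2 = (∑ i ∈ I, (E i ∩ cl a).card) % 2 := by
  classical
  obtain ⟨t0, ht0⟩ := card_pos.1 (show 0 < J.card by omega)
  obtain ⟨e, eP, e1, he, hc⟩ := central_inv P hP (hJP t0 ht0) (hJ t0 ht0).2
  let Q : Finset G := univ.filter fun x => x ∈ Subgroup.centralizer (P : Set G)
  have hQ : ∀ x, x ∈ Q ↔ ∀ p ∈ P, p * x = x * p := fun x => by
    simp [Q, Subgroup.mem_centralizer_iff]
  have hq : Nat.card (Subgroup.centralizer (P : Set G)) = Q.card := by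
    rw [← Fintype.card_coe, ← Nat.card_eq_fintype_card]
    exact Nat.card_congr (Equiv.subtypeEquivRight fun x => by simp [Q])
  have ei : e⁻¹ = e := inv_eq_of_mul_eq_one_right he
  obtain ⟨R, r1, r2⟩ := pairs (Q \ {1, e}) (fun x => x * e)
    (fun x => by rw [mul_assoc, he, mul_one]) (fun x => by simpa using e1) (fun x hx => by
      simp only [mem_sdiff, mem_insert, mem_singleton, not_or, hQ] at hx ⊢
      refine ⟨fun p hp => ?_, fun h => hx.2.2 ?_, by simpa using hx.2.1⟩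
      · rw [← mul_assoc, hx.1 p hp, mul_assoc, hc p hp, mul_assoc]
      · rw [eq_inv_of_mul_eq_one_left h, ei])
  have r3 : ∀ g ∈ R, (∀ p ∈ P, p * g = g * p) ∧ g ≠ 1 ∧ g ≠ e := fun g hg => by
    simpa only [mem_sdiff, mem_insert, mem_singleton, not_or, hQ] using r1 hg
  have hsub : ({1, e} : Finset G) ⊆ Q := by
    intro x hx
    rcases mem_insert.1 hx with rfl | hx
    · exact (hQ _).2 (by simp)
    · rw [mem_singleton.1 hx]; exact (hQ _).2 hc
  have r4 : ∀ f : G → ℕ, ∑ x ∈ Q, f x = ∑ x ∈ R, (f x + f (x * e)) + (f 1 + f e) := fun f => by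
    rw [← sum_sdiff hsub, r2, sum_pair e1.symm]
  have r5 : Q.card = R.card * 2 + 2 := by simpa using r4 fun _ => 1
  have hT : ∀ g : G, ∃ T : Finset G, g ∈ R → Mini T {g, g * e, e} := fun g => by
    by_cases hg : g ∈ R
    · obtain ⟨a1, a2, a3⟩ := r3 g hg
      obtain ⟨u, u1, K, k1, k2, k3, k4⟩ := exists_t he (a1 e eP) J hJ h3
      exact ⟨_, fun _ => tri K he (hJ u u1).1 (a1 e eP)
        (k4 (a1 u (hJP u u1)).symm (hc u (hJP u u1)).symm) k3 k1 k2 a2 e1 a3⟩
    · exact ⟨∅, fun h => absurd h hg⟩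
  choose T hT using hT
  have key : ∀ a : G, a ≠ 1 → ((cl a).card + R.card * if e ∈ cl a then 1 else 0) % 2 =
      (∑ g ∈ R, ({g, g * e, e} ∩ cl a).card + if e ∈ cl a then 1 else 0) % 2 := fun a ha => by
    have a1 := class_par P hP Q hQ a
    have a2 := r4 fun x => if x ∈ cl a then 1 else 0
    rw [← card_filter, filter_mem_eq_inter, if_neg fun h => ne_one_of_cl h ha rfl] at a2
    have a3 : ∑ g ∈ R, ({g, g * e, e} ∩ cl a).card = ∑ g ∈ R, ((if g ∈ cl a then 1 else 0) +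
        if g * e ∈ cl a then 1 else 0) + R.card * if e ∈ cl a then 1 else 0 := by
      rw [← smul_eq_mul, ← sum_const, ← sum_add_distrib]
      exact sum_congr rfl fun g hg =>
        card_three (by simpa using e1) (r3 g hg).2.2 (by simpa using (r3 g hg).2.1) _
    omega
  rcases Nat.even_or_odd' R.card with ⟨k, hk | hk⟩
  · obtain ⟨T0, E0, a1, a2⟩ := extra P hP J hJ hJP h3 e1 he hc fun z z1 z2 => by
      by_contra hz
      push Not at hz
      obtain ⟨n, hn⟩ := IsPGroup.iff_card.1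
        (hP.to_inf_left (K := Subgroup.centralizer (P : Set G)))
      have b1 := Subgroup.card_dvd_of_le
        (inf_le_right (a := P) (b := Subgroup.centralizer (P : Set G)))
      have b2 : 3 ≤ Nat.card (P ⊓ Subgroup.centralizer (P : Set G) : Subgroup G) := by
        rw [Nat.card_eq_fintype_card]
        refine Fintype.two_lt_card_iff.2 ⟨1, ⟨e, eP, hc⟩, ⟨z, z1, z2⟩,
          fun h => e1 (congrArg Subtype.val h).symm, fun h => hz.1 (congrArg Subtype.val h).symm,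
          fun h => hz.2 (congrArg Subtype.val h).symm⟩
      rw [hn] at b1 b2
      have b3 : 2 ≤ n := by
        by_contra h
        have : n = 0 ∨ n = 1 := by omega
        rcases this with rfl | rfl <;> simp at b2
      have b4 := (pow_dvd_pow 2 b3).trans b1
      omega
    have n1 : (1 : G) ∉ R := fun h => (r3 1 h).2.1 rfl
    refine ⟨insert 1 R, fun g => if g = 1 then T0 else T g,
      fun g => if g = 1 then E0 else {g, g * e, e}, fun i hi => ?_, ?_, fun a ha => ?_⟩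
    · rcases mem_insert.1 hi with rfl | hi
      · simpa using a1
      · simpa [(r3 i hi).2.1] using hT i hi
    · rw [card_insert_of_notMem n1]; omega
    · beta_reduce
      rw [sum_insert n1, if_pos rfl, sum_congr rfl fun g hg => by rw [if_neg (r3 g hg).2.1]]
      have b1 := key a ha
      have b2 := a2 a
      rw [hk] at b1
      split_ifs at b1 b2 <;> omega
  · refine ⟨R, T, fun g => {g, g * e, e}, hT, by omega, fun a ha => ?_⟩
    have b1 := key a ha
    rw [hk] at b1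
    beta_reduce
    split_ifs at b1 <;> omega

theorem criterion (W : ℕ) : ∃ D : ℕ, ∀ (G : Type) [Group G] [Finite G], QR G D → CW G W →
    (∀ g : G, 8 ≤ Nat.card (Subgroup.centralizer ({g} : Set G))) →
    ∀ P : Subgroup G, IsPGroup 2 P → 3 < {t : G | t ∈ P ∧ orderOf t = 2}.ncard →
    (∀ g : G, g ≠ 1 →
      D * Nat.card (Subgroup.centralizer (P : Set G)) ≤ {x | IsConj g x}.ncard) → HasRoot G := by
  classical
  obtain ⟨δ, hδ, H⟩ := sys_of_minis W
  obtain ⟨D, hD⟩ := exists_nat_gt (40 / δ)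
  have hD0 : (0 : ℝ) < D := lt_trans (by positivity) hD
  refine ⟨D, fun G _ _ hQ hW h8 P hP h3 hcl => root_of_sys ?_⟩
  have := Fintype.ofFinite G
  have hn := npos (G := G)
  have hm := mix_of_qr (by exact_mod_cast hD0) hQ
  rw [div_lt_iff₀ hδ] at hD
  let J : Finset G := univ.filter fun t => t ∈ P ∧ orderOf t = 2
  have hJ : ∀ t ∈ J, t * t = 1 ∧ t ≠ 1 := fun t ht => by
    have h := (mem_filter.1 ht).2.2
    exact ⟨by rw [← sq, ← h, pow_orderOf_eq_one], by rintro rfl; simp at h⟩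
  have hJ3 : 3 < J.card := by
    rw [← Set.ncard_coe_finset]; simpa [J] using h3
  obtain ⟨I, T, E, a1, a2, a3⟩ := family P hP J hJ (fun t ht => (mem_filter.1 ht).2.1) hJ3
  obtain ⟨q, hq⟩ : ∃ q, q = Nat.card (Subgroup.centralizer (P : Set G)) := ⟨_, rfl⟩
  rw [← hq] at a2 hcl
  have hDq : 0 < D * q := Nat.mul_pos (by exact_mod_cast hD0) (by omega)
  obtain ⟨B, hB⟩ : ∃ B, B = Fintype.card G / (D * q) := ⟨_, rfl⟩
  have b1 : ∀ a : G, a ≠ 1 → zc a ≤ B := fun a ha => by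
    have := hcl a ha
    rw [← coe_cl, Set.ncard_coe_finset] at this
    rw [hB, Nat.le_div_iff_mul_le hDq, ← zc_mul a]
    exact Nat.mul_le_mul_left _ this
  obtain ⟨t0, ht0⟩ := card_pos.1 (show 0 < J.card by omega)
  have b2 : 0 < B := (zc_pos t0).trans_le (b1 t0 (hJ t0 ht0).2)
  have b3 : (B * (D * q) : ℝ) ≤ Fintype.card G := by
    exact_mod_cast hB ▸ Nat.div_mul_le_self _ _
  have b4 : (I.card + 1 : ℝ) ≤ q := by exact_mod_cast a2
  have b5 : (1 : ℝ) ≤ B := by exact_mod_cast b2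
  have b6 : (0 : ℝ) ≤ I.card := by positivity
  have b7 : (40 * (B * q) : ℝ) ≤ δ * Fintype.card G := by
    have h1 := mul_le_mul_of_nonneg_left b3 hδ.le
    have h2 := mul_le_mul_of_nonneg_right hD.le (show (0 : ℝ) ≤ B * q by positivity)
    nlinarith
  have b8 : (B : ℝ) ≤ δ * Fintype.card G := by nlinarith
  refine H G ⟨hm.mono ?_, fun a ha => le_trans (by exact_mod_cast b1 a ha) b8, b5.trans b8,
    fun a => zc_eq a ▸ h8 a⟩ hW I T E B b2 a1 b1 (by nlinarith) a3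
  rw [div_le_iff₀ hD0]; nlinarith

end Pool.Agent.Lib.MP_2c654c_co.Syl
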