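import Mathlib
import Pool.Agent.Lib.MP_2c654c_co.Syl.Two

set_option autoImplicit false

namespace Pool.Agent.Lib.MP_2c654c_co.Syl

open Finset Pool.Agent.Lib.MP_2c654c_co.Abs

theorem jordan_alg {G A : Type} [Group G] [Finite G] [NormedRing A] [NormedAlgebra ℝ A]
    [FiniteDimensional ℝ A] (ρ : G →* A) (hρ : ∀ g, ‖ρ g‖ ≤ 1) {W : ℕ} (hW : CW G W)
    (hN : ∀ N : Subgroup G, N.Normal → N ≠ ⊤ → 5 ^ Module.finrank ℝ A < N.index) (g : G) :
    ρ g = 1 := by
  classical
  have := Fintype.ofFinite G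
  let ν : G → ℝ := fun g => ‖ρ g - 1‖
  have l1 : ∀ (x : G) (a : A), ‖ρ x * a‖ ≤ ‖a‖ := fun x a =>
    (norm_mul_le _ _).trans (mul_le_of_le_one_left (norm_nonneg _) (hρ x))
  have l2 : ∀ (x : G) (a : A), ‖a * ρ x‖ ≤ ‖a‖ := fun x a =>
    (norm_mul_le _ _).trans (mul_le_of_le_one_right (norm_nonneg _) (hρ x))
  have c1 : ∀ x h, ν (h * x * h⁻¹) ≤ ν x := fun x h => by
    have : ρ (h * x * h⁻¹) - 1 = ρ h * ((ρ x - 1) * ρ h⁻¹) := by
      rw [sub_mul, mul_sub, one_mul, ← map_mul, ← map_mul, ← map_mul, mul_inv_cancel, map_one,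
        mul_assoc]
    simp only [ν, this]
    exact (l1 _ _).trans (l2 _ _)
  have c2 : ∀ a b, ν (a * b * a⁻¹ * b⁻¹) ≤ 2 * (ν a * ν b) := fun a b => by
    have e : (ρ a - 1) * (ρ b - 1) - (ρ b - 1) * (ρ a - 1) = ρ (a * b) - ρ (b * a) := by
      rw [map_mul, map_mul]; noncomm_ring
    have : ρ (a * b * a⁻¹ * b⁻¹) - 1 =
        ((ρ a - 1) * (ρ b - 1) - (ρ b - 1) * (ρ a - 1)) * ρ (a⁻¹ * b⁻¹) := by
      rw [e, sub_mul, ← map_mul, ← map_mul, show b * a * (a⁻¹ * b⁻¹) = 1 by group, map_one,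
        mul_assoc (a * b)]
    simp only [ν, this]
    refine (l2 _ _).trans ((norm_sub_le _ _).trans ?_)
    have h1 := norm_mul_le (ρ a - 1) (ρ b - 1)
    have h2 := norm_mul_le (ρ b - 1) (ρ a - 1)
    linarith [mul_comm ‖ρ a - 1‖ ‖ρ b - 1‖]
  let M : ℝ → Subgroup G := fun r => Subgroup.closure {x | ν x < r}
  have hM : ∀ r, (M r).Normal := fun r => ⟨fun x hx h => by
    induction hx using Subgroup.closure_induction with
    | mem x hx => exact Subgroup.subset_closure ((c1 x h).trans_lt hx)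
    | one => simp
    | mul x y _ _ h1 h2 => simpa [mul_assoc] using (M r).mul_mem h1 h2
    | inv x _ h1 => simpa [mul_assoc] using (M r).inv_mem h1⟩
  have top : M (1 / 2) = ⊤ := by
    by_contra h
    refine absurd (hN _ (hM _) h) (not_lt.2 ?_)
    let f : G ⧸ M (1 / 2) → A := fun q => (2 : ℝ) • ρ q.out
    have hf : ∀ p q, p ≠ q → 1 ≤ ‖f p - f q‖ := fun p q hpq => by
      have h1 : ¬ ν (q.out⁻¹ * p.out) < 1 / 2 := fun h => hpq (by
        rw [← p.out_eq', ← q.out_eq', eq_comm, QuotientGroup.eq]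
        exact Subgroup.subset_closure h)
      have h2 : ρ (q.out⁻¹ * p.out) - 1 = ρ q.out⁻¹ * (ρ p.out - ρ q.out) := by
        rw [mul_sub, ← map_mul, ← map_mul, inv_mul_cancel, map_one]
      have h3 := l1 q.out⁻¹ (ρ p.out - ρ q.out)
      simp only [ν, h2] at h1
      simp only [f, ← smul_sub, norm_smul, Real.norm_ofNat]
      linarith [not_lt.1 h1]
    have hi : Function.Injective f := fun p q hpq => by
      by_contra h
      have := hf p q h
      rw [hpq, sub_self, norm_zero] at this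
      linarith
    have h1 := Besicovitch.card_le_of_separated (univ.image f) (fun c hc => by
      obtain ⟨q, -, rfl⟩ := mem_image.1 hc
      simp only [f, norm_smul, Real.norm_ofNat]
      linarith [hρ q.out]) (fun c hc d hd hcd => by
      obtain ⟨p, -, rfl⟩ := mem_image.1 hc
      obtain ⟨q, -, rfl⟩ := mem_image.1 hd
      exact hf p q fun h => hcd (by rw [h]))
    rwa [card_image_of_injective _ hi, card_univ, ← Nat.card_eq_fintype_card] at h1
  have key : ∀ n : ℕ, ∀ r : ℝ, r ≤ 1 / 2 → (univ.filter fun x => ν x < r).card ≤ n → M r = ⊤ →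
      ∀ g, ρ g = 1 := by
    intro n
    induction n using Nat.strong_induction_on with
    | _ n ih =>
    intro r hr hn ht
    by_cases h0 : ∀ x, ν x < r → ρ x = 1
    · intro g
      have : M r ≤ ρ.toHomUnits.ker := (Subgroup.closure_le _).2 fun x hx =>
        Units.ext (h0 x hx)
      exact congrArg Units.val (this (ht ▸ Subgroup.mem_top g))
    push Not at h0
    obtain ⟨x, x1, x2⟩ := h0
    obtain ⟨y, y1, y2⟩ := exists_max_image (univ.filter fun x => ν x < r) ν ⟨x, by simpa using x1⟩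
    simp only [mem_filter, mem_univ, true_and] at y1 y2
    have y3 : 0 < ν y := (norm_pos_iff.2 (sub_ne_zero.2 x2)).trans_le (y2 x x1)
    refine ih _ (lt_of_lt_of_le (card_lt_card ?_) hn) (ν y) (by linarith) le_rfl ?_
    · refine ⟨fun z hz => mem_filter.2 ⟨mem_univ _, (mem_filter.1 hz).2.trans y1⟩, fun h => ?_⟩
      exact lt_irrefl _ (mem_filter.1 (h (mem_filter.2 ⟨mem_univ _, y1⟩))).2
    · have := hM (ν y)
      let π := QuotientGroup.mk' (M (ν y))
      have k1 : ∀ a b, ν a < r → ν b < r → π a * π b = π b * π a := fun a b ha hb => by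
        rw [← mul_inv_eq_one, mul_inv_rev, ← mul_assoc, ← map_inv, ← map_inv, ← map_mul,
          ← map_mul, ← map_mul]
        refine (QuotientGroup.eq_one_iff _).2 (Subgroup.subset_closure ((c2 a b).trans_lt ?_))
        have h1 := mul_le_mul (y2 a ha) (y2 b hb) (norm_nonneg _) y3.le
        nlinarith
      have k2 : ∀ b, (∀ a, ν a < r → π a * π b = π b * π a) → ∀ a, π a * π b = π b * π a := by
        intro b hb a
        have : M r ≤ (Subgroup.centralizer {π b}).comap π := (Subgroup.closure_le _).2 fun x hx =>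
          Subgroup.mem_centralizer_singleton_iff.2 (hb x hx)
        exact Subgroup.mem_centralizer_singleton_iff.1 (this (ht ▸ Subgroup.mem_top a))
      have k3 : ∀ a b, π a * π b = π b * π a := fun a b =>
        k2 b (fun a ha => (k2 a (fun b hb => k1 b a hb ha) b).symm) a
      refine (Subgroup.eq_top_iff' _).2 fun g => ?_
      obtain ⟨l, -, rfl⟩ := hW g
      refine Subgroup.list_prod_mem _ fun z hz => ?_
      obtain ⟨p, -, rfl⟩ := List.mem_map.1 hz
      refine (QuotientGroup.eq_one_iff _).1 (show π _ = 1 from ?_)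
      rw [map_mul, map_mul, map_mul, k3 p.1 p.2, map_inv, map_inv]
      group
  exact key _ _ le_rfl le_rfl top g

theorem jordan_iso {G E : Type} [Group G] [Finite G] [NormedAddCommGroup E] [NormedSpace ℝ E]
    [FiniteDimensional ℝ E] (ρ : Representation ℝ G E) (hρ : ∀ g v, ‖ρ g v‖ ≤ ‖v‖) {W : ℕ}
    (hW : CW G W)
    (hN : ∀ N : Subgroup G, N.Normal → N ≠ ⊤ →
      5 ^ (Module.finrank ℝ E * Module.finrank ℝ E) < N.index) (g : G) : ρ g = 1 := by
  let φ : G →* (E →L[ℝ] E) :=
    { toFun := fun g => LinearMap.toContinuousLinearMap (ρ g)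
      map_one' := by ext v; simp
      map_mul' := fun a b => by ext v; simp }
  have h := jordan_alg φ (fun g => ContinuousLinearMap.opNorm_le_bound _ zero_le_one fun v => by
    simpa [φ] using hρ g v) hW (by
    rwa [← (LinearMap.toContinuousLinearMap (𝕜 := ℝ) (E := E) (F' := E)).finrank_eq,
      Module.finrank_linearMap]) g
  ext v
  simpa [φ] using congrArg (fun f : E →L[ℝ] E => f v) h

theorem jordan_lin {G V F : Type} [Group G] [Finite G] [AddCommGroup V] [Module ℝ V]
    [FiniteDimensional ℝ V] [NormedAddCommGroup F] [NormedSpace ℝ F] (f : V →ₗ[ℝ] F)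
    (hf : Function.Injective f) (ρ : Representation ℝ G V) (hρ : ∀ g v, ‖f (ρ g v)‖ ≤ ‖f v‖)
    {W : ℕ} (hW : CW G W)
    (hN : ∀ N : Subgroup G, N.Normal → N ≠ ⊤ →
      5 ^ (Module.finrank ℝ V * Module.finrank ℝ V) < N.index) (g : G) : ρ g = 1 := by
  let _ := NormedAddCommGroup.induced V F f hf
  let _ := NormedSpace.induced ℝ V F f
  exact jordan_iso ρ hρ hW hN g

theorem qr_of_index {G : Type} [Group G] [Finite G] {W D : ℕ} (hW : CW G W)
    (hN : ∀ N : Subgroup G, N.Normal → N ≠ ⊤ → 5 ^ (D * D) < N.index) : QR G D := by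
  intro d hd ρ g
  have := Fintype.ofFinite G
  refine jordan_lin (F := G → Fin d → ℝ) (LinearMap.pi fun x => ρ x) (fun u v h => by
    simpa using congrFun h 1) ρ (fun g v => ?_) hW (fun N h1 h2 => lt_of_le_of_lt ?_ (hN N h1 h2)) g
  · refine (pi_norm_le_iff_of_nonneg (norm_nonneg _)).2 fun x => ?_
    simpa using norm_le_pi_norm (LinearMap.pi (fun x => ρ x) v) (x * g)
  · simp only [Module.finrank_fin_fun]
    exact Nat.pow_le_pow_right (by norm_num) (Nat.mul_le_mul hd.le hd.le)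

theorem criterion' (W : ℕ) : ∃ D : ℕ, ∀ (G : Type) [Group G] [Finite G],
    (∀ N : Subgroup G, N.Normal → N ≠ ⊤ → D ≤ N.index) → CW G W →
    (∀ g : G, 8 ≤ Nat.card (Subgroup.centralizer ({g} : Set G))) →
    ∀ P : Subgroup G, IsPGroup 2 P → 3 < {t : G | t ∈ P ∧ orderOf t = 2}.ncard →
    (∀ g : G, g ≠ 1 →
      D * Nat.card (Subgroup.centralizer (P : Set G)) ≤ {x | IsConj g x}.ncard) → HasRoot G := by
  obtain ⟨D, H⟩ := criterion W
  refine ⟨5 ^ (D * D) + 1 + D, fun G _ _ h1 h2 h3 P h4 h5 h6 => H G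
    (qr_of_index h2 fun N a b => by have := h1 N a b; omega) h2 h3 P h4 h5 fun g hg =>
      le_trans (Nat.mul_le_mul_right _ (Nat.le_add_left _ _)) (h6 g hg)⟩

end Pool.Agent.Lib.MP_2c654c_co.Syl
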