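import Mathlib
import Pool.Agent.Lib.MP_2c654c_co.Syl.Jor

set_option autoImplicit false

namespace Pool.Agent.Lib.MP_2c654c_co.Syl

open Finset Pool.Agent.Lib.MP_2c654c_co.Abs

theorem dihedral {G : Type} [Group G] [Finite G] {ρ σ : G} (h1 : ρ ^ 4 = 1) (h2 : σ * σ = 1)
    (h3 : ρ * σ * ρ = σ) (h4 : ρ * ρ ≠ 1) : ∃ P : Subgroup G, IsPGroup 2 P ∧
      3 < {t : G | t ∈ P ∧ orderOf t = 2}.ncard ∧ σ ∈ P ∧ σ ≠ 1 := by
  classical
  have c0 : SemiconjBy σ ρ ρ⁻¹ := by
    unfold SemiconjBy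
    rw [eq_inv_mul_iff_mul_eq, ← mul_assoc, h3]
  have c : ∀ i : ℤ, σ * ρ ^ i = ρ ^ (-i) * σ := fun i => by
    simpa using (c0.zpow_right i).eq
  have c1 : ∀ (i : ℤ) (x : G), σ * (ρ ^ i * x) = ρ ^ (-i) * (σ * x) := fun i x => by
    rw [← mul_assoc, c, mul_assoc]
  have sq : ∀ i : ℤ, ρ ^ i * σ * (ρ ^ i * σ) = 1 := fun i => by
    rw [mul_assoc, c1, h2, mul_one, ← zpow_add]; simp
  have ne : ∀ i : ℤ, ρ ^ i * σ ≠ 1 := fun i h => h4 (by
    have h5 : σ = ρ ^ (-i) := by rw [eq_inv_of_mul_eq_one_right h, zpow_neg]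
    have h6 : ρ * σ = σ * ρ := by rw [h5]; exact (Commute.self_zpow ρ _).eq
    rw [h6, mul_assoc] at h3
    simpa using h3)
  let P : Subgroup G :=
    { carrier := {x | ∃ i : ℤ, x = ρ ^ i ∨ x = ρ ^ i * σ}
      one_mem' := ⟨0, Or.inl (by simp)⟩
      mul_mem' := by
        rintro x y ⟨i, rfl | rfl⟩ ⟨k, rfl | rfl⟩
        · exact ⟨i + k, Or.inl (zpow_add _ _ _).symm⟩
        · exact ⟨i + k, Or.inr (by rw [zpow_add, mul_assoc])⟩
        · exact ⟨i + -k, Or.inr (by rw [zpow_add, mul_assoc, c, mul_assoc])⟩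
        · exact ⟨i + -k, Or.inl (by rw [zpow_add, mul_assoc, c1, h2, mul_one])⟩
      inv_mem' := by
        rintro x ⟨i, rfl | rfl⟩
        · exact ⟨-i, Or.inl (by simp)⟩
        · exact ⟨i, Or.inr (inv_eq_of_mul_eq_one_right (sq i))⟩ }
  refine ⟨P, ?_, ?_, ⟨0, Or.inr (by simp)⟩, by simpa using ne 0⟩
  · rintro ⟨x, i, rfl | rfl⟩ <;> refine ⟨2, Subtype.ext ?_⟩
    · show (ρ ^ i) ^ 4 = 1
      rw [← zpow_natCast, ← zpow_mul, mul_comm, zpow_mul, zpow_natCast, h1,
        one_zpow]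
    · show (ρ ^ i * σ) ^ (2 * 2) = 1
      rw [pow_mul, pow_two (ρ ^ i * σ), sq, one_pow]
  · have ho : orderOf ρ = 2 ^ (1 + 1) := orderOf_eq_prime_pow (by simpa [pow_two] using h4) h1
    have hi : Set.InjOn (fun i : ℕ => ρ ^ i * σ) (range 4 : Finset ℕ) := fun i hi j hj h =>
      pow_injOn_Iio_orderOf (x := ρ) (by simpa [ho] using hi) (by simpa [ho] using hj)
        (mul_right_cancel h)
    have h5 := Set.ncard_le_ncard (s := ((range 4).image fun i : ℕ => ρ ^ i * σ : Finset G))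
      (t := {t : G | t ∈ P ∧ orderOf t = 2}) (by
        intro y hy
        obtain ⟨i, -, rfl⟩ := mem_image.1 hy
        exact ⟨⟨i, Or.inr (by simp)⟩, orderOf_eq_prime (by simpa [pow_two] using sq i)
          (by simpa using ne i)⟩)
    rw [Set.ncard_coe_finset, card_image_of_injOn hi, card_range] at h5
    omega

open Matrix

variable {F : Type} [Field F]

/-- the special linear group of degree two -/
abbrev S2 (F : Type) [Field F] : Type := SpecialLinearGroup (Fin 2) F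

/-- a matrix of determinant one from its entries -/
def mk2 (a b c d : F) (h : a * d - b * c = 1) : S2 F :=
  ⟨!![a, b; c, d], by rw [det_fin_two_of]; exact h⟩

theorem det2 (A : S2 F) : A 0 0 * A 1 1 - A 0 1 * A 1 0 = 1 := by
  have := A.2
  rwa [det_fin_two] at this

theorem ext2 {A B : S2 F} (h1 : A 0 0 = B 0 0) (h2 : A 0 1 = B 0 1) (h3 : A 1 0 = B 1 0)
    (h4 : A 1 1 = B 1 1) : A = B := by
  ext i j
  fin_cases i <;> fin_cases j <;> assumption

theorem mul2 (A B : S2 F) (i j : Fin 2) : (A * B) i j = A i 0 * B 0 j + A i 1 * B 1 j := by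
  simp [Matrix.mul_apply, Fin.sum_univ_two]

theorem cen2 {A : S2 F} : A ∈ Subgroup.center (S2 F) ↔ A 0 1 = 0 ∧ A 1 0 = 0 ∧ A 0 0 = A 1 1 := by
  rw [Subgroup.mem_center_iff]
  constructor
  · intro h
    have h1 := h (mk2 1 1 0 1 (by ring))
    have h2 := h (mk2 1 0 1 1 (by ring))
    have a1 := congrArg (fun M : S2 F => M 0 0) h1
    have a2 := congrArg (fun M : S2 F => M 0 1) h1
    have a3 := congrArg (fun M : S2 F => M 0 0) h2
    simp only [mul2] at a1 a2 a3
    simp [mk2] at a1 a2 a3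
    exact ⟨a3, a1, by linear_combination -a2⟩
  · rintro ⟨h1, h2, h3⟩ B
    apply ext2 <;> simp only [mul2, h1, h2, h3] <;> ring

theorem cw2 (a : F) (a0 : a ≠ 0) (a1 : a ^ 2 ≠ 1) : CW (S2 F) 4 := by
  have h1 : a ^ 2 - 1 ≠ 0 := sub_ne_zero.2 a1
  let U : F → S2 F := fun x => mk2 1 x 0 1 (by ring)
  let L : F → S2 F := fun x => mk2 1 0 x 1 (by ring)
  let D : S2 F := mk2 a 0 0 a⁻¹ (by field_simp; ring)
  let E : S2 F := mk2 a⁻¹ 0 0 a (by field_simp; ring)
  have hU : ∀ x, ∃ p : S2 F × S2 F, U x = p.1 * p.2 * p.1⁻¹ * p.2⁻¹ := fun x =>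
    ⟨(D, U (x / (a ^ 2 - 1))), by
      rw [eq_mul_inv_iff_mul_eq, eq_mul_inv_iff_mul_eq]
      apply ext2 <;> simp only [mul2] <;> simp [U, D, mk2]
      field_simp; ring⟩
  have hL : ∀ x, ∃ p : S2 F × S2 F, L x = p.1 * p.2 * p.1⁻¹ * p.2⁻¹ := fun x =>
    ⟨(E, L (x / (a ^ 2 - 1))), by
      rw [eq_mul_inv_iff_mul_eq, eq_mul_inv_iff_mul_eq]
      apply ext2 <;> simp only [mul2] <;> simp [L, E, mk2]
      field_simp; ring⟩
  have h3 : ∀ A : S2 F, A 1 0 ≠ 0 → ∃ x y, A = U x * (L (A 1 0) * U y) := fun A h =>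
    ⟨(A 0 0 - 1) / A 1 0, (A 1 1 - 1) / A 1 0, by
      have := det2 A
      apply ext2 <;> simp only [mul2] <;> simp [U, L, mk2] <;> field_simp
      · ring
      · linear_combination -this
      · ring⟩
  choose u hu using hU
  choose l hl using hL
  intro A
  by_cases h : A 1 0 = 0
  · have h4 : (L 1 * A) 1 0 ≠ 0 := by
      have := det2 A
      simp only [mul2]
      simp only [L, mk2, h] at this ⊢
      rintro h5
      simp at h5
      simp [h5] at this
    obtain ⟨x, y, h5⟩ := h3 _ h4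
    refine ⟨[l (-1), u x, l ((L 1 * A) 1 0), u y], le_rfl, ?_⟩
    simp only [cprod, List.map_cons, List.map_nil, List.prod_cons, List.prod_nil, ← hu, ← hl,
      mul_one, ← h5, ← mul_assoc]
    rw [show L (-1) * L 1 = 1 by apply ext2 <;> simp only [mul2] <;> simp [L, mk2], one_mul]
  · obtain ⟨x, y, h5⟩ := h3 A h
    refine ⟨[u x, l (A 1 0), u y], by simp, ?_⟩
    simp only [cprod, List.map_cons, List.map_nil, List.prod_cons, List.prod_nil, ← hu, ← hl,
      mul_one, ← h5]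

theorem CW.map {G H : Type} [Group G] [Group H] {W : ℕ} (h : CW G W) (π : G →* H)
    (hπ : Function.Surjective π) : CW H W := by
  intro y
  obtain ⟨g, rfl⟩ := hπ y
  obtain ⟨l, h1, rfl⟩ := h g
  refine ⟨l.map fun p => (π p.1, π p.2), by simpa using h1, ?_⟩
  simp [cprod, map_list_prod, Function.comp_def]

variable [Fintype F] [DecidableEq F]

theorem zc_le2 {A : S2 F} (hA : A ∉ Subgroup.center (S2 F)) : zc A ≤ 2 * Fintype.card F := by
  have key : ∀ X : S2 F, X⁻¹ * A * X = A → ∃ s t : F, X 0 0 = s + t * A 0 0 ∧ X 0 1 = t * A 0 1 ∧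
      X 1 0 = t * A 1 0 ∧ X 1 1 = s + t * A 1 1 := fun X h => by
    rw [mul_assoc, inv_mul_eq_iff_eq_mul] at h
    have a1 := congrArg (fun M : S2 F => M 0 0) h
    have a2 := congrArg (fun M : S2 F => M 0 1) h
    have a3 := congrArg (fun M : S2 F => M 1 0) h
    simp only [mul2] at a1 a2 a3
    by_cases hb : A 0 1 = 0
    · by_cases hc : A 1 0 = 0
      · have hd : A 0 0 - A 1 1 ≠ 0 := fun h => hA (cen2.2 ⟨hb, hc, sub_eq_zero.1 h⟩)
        refine ⟨X 0 0 - (X 0 0 - X 1 1) / (A 0 0 - A 1 1) * A 0 0,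
          (X 0 0 - X 1 1) / (A 0 0 - A 1 1), by ring, ?_, ?_, by field_simp; ring⟩
        · rw [hb] at a2 ⊢
          rw [mul_zero]
          exact (mul_eq_zero.1 (by linear_combination a2)).resolve_left hd
        · rw [hc] at a3 ⊢
          rw [mul_zero]
          exact (mul_eq_zero.1 (by linear_combination -a3)).resolve_left hd
      · refine ⟨X 0 0 - X 1 0 / A 1 0 * A 0 0, X 1 0 / A 1 0, by ring, ?_, by field_simp, ?_⟩ <;>
          field_simp
        · linear_combination -a1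
        · linear_combination -a3
    · refine ⟨X 0 0 - X 0 1 / A 0 1 * A 0 0, X 0 1 / A 0 1, by ring, by field_simp, ?_, ?_⟩ <;>
        field_simp
      · linear_combination a1
      · linear_combination a2
  choose! s t hst using key
  refine card_le_mul_card_image_of_maps_to (f := t) (t := univ) (fun _ _ => mem_univ _) 2
    fun τ _ => ?_
  by_contra h
  obtain ⟨X, Y, Z, hX, hY, hZ, h1, h2, h3⟩ := two_lt_card_iff.1 (not_le.1 h)
  have e : ∀ X ∈ (univ.filter fun e : S2 F => e⁻¹ * A * e = A).filter fun x => t x = τ,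
      X 0 0 = s X + τ * A 0 0 ∧ X 0 1 = τ * A 0 1 ∧ X 1 0 = τ * A 1 0 ∧ X 1 1 = s X + τ * A 1 1 :=
    fun X hX => (mem_filter.1 hX).2 ▸ hst X (mem_filter.1 (mem_filter.1 hX).1).2
  have d : ∀ X ∈ (univ.filter fun e : S2 F => e⁻¹ * A * e = A).filter fun x => t x = τ,
      ∀ Y ∈ (univ.filter fun e : S2 F => e⁻¹ * A * e = A).filter fun x => t x = τ, X ≠ Y →
      s X ≠ s Y ∧ s X + s Y + τ * (A 0 0 + A 1 1) = 0 := fun X hX Y hY hXY => by
    obtain ⟨a1, a2, a3, a4⟩ := e X hX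
    obtain ⟨b1, b2, b3, b4⟩ := e Y hY
    have h1 : s X ≠ s Y := fun h => hXY (ext2 (by rw [a1, b1, h]) (by rw [a2, b2]) (by rw [a3, b3])
      (by rw [a4, b4, h]))
    have d1 := det2 X
    have d2 := det2 Y
    rw [a1, a2, a3, a4] at d1
    rw [b1, b2, b3, b4] at d2
    exact ⟨h1, (mul_eq_zero.1 (by linear_combination d1 - d2)).resolve_left (sub_ne_zero.2 h1)⟩
  exact (d Y hY Z hZ h3).1 (by linear_combination (d X hX Y hY h1).2 - (d X hX Z hZ h2).2)

theorem card2 : Fintype.card F * (Fintype.card F * (Fintype.card F - 1)) ≤ Fintype.card (S2 F) := by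
  have := Fintype.card_le_of_injective (fun p : F × F × Fˣ =>
    mk2 p.1 ((p.1 * p.2.1 - 1) / p.2.2) p.2.2 p.2.1 (by field_simp; ring)) fun p q h => by
      have a1 := congrArg (fun M : S2 F => M 0 0) h
      have a2 := congrArg (fun M : S2 F => M 1 0) h
      have a3 := congrArg (fun M : S2 F => M 1 1) h
      simp [mk2] at a1 a2 a3
      exact Prod.ext a1 (Prod.ext a3 (Units.ext a2))
  simpa [Fintype.card_units] using this

theorem zc_ge2 (h2 : (2 : F) ≠ 0) {A : S2 F} (hA : A ∉ Subgroup.center (S2 F)) :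
    Fintype.card F ≤ zc A + 3 := by
  obtain ⟨τ, hτ⟩ : ∃ τ, τ = A 0 0 + A 1 1 := ⟨_, rfl⟩
  have hd := det2 A
  let M : Finset F := univ.filter fun m => m ^ 2 + τ * m + 1 ≠ 0 ∧ 2 * m + τ ≠ 0
  let u : F → F := fun m => -(2 * m + τ) / (m ^ 2 + τ * m + 1)
  have hf : ∀ m : F, ∃ X : S2 F, m ∈ M → X 0 0 = 1 + m * u m + u m * A 0 0 ∧ X 0 1 = u m * A 0 1 ∧
      X 1 0 = u m * A 1 0 ∧ X 1 1 = 1 + m * u m + u m * A 1 1 := fun m => by
    by_cases hm : m ∈ M
    · have h1 : u m * (m ^ 2 + τ * m + 1) = -(2 * m + τ) := div_mul_cancel₀ _ (mem_filter.1 hm).2.1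
      exact ⟨mk2 (1 + m * u m + u m * A 0 0) (u m * A 0 1) (u m * A 1 0) (1 + m * u m + u m * A 1 1)
        (by linear_combination u m * h1 + (u m) ^ 2 * hd - (u m + m * u m ^ 2) * hτ),
        fun _ => by simp [mk2]⟩
    · exact ⟨1, fun h => absurd h hm⟩
  choose X hX using hf
  have h1 : M.card ≤ zc A := card_le_card_of_injOn X (fun m hm => by
    obtain ⟨a1, a2, a3, a4⟩ := hX m hm
    refine mem_coe.2 (mem_filter.2 ⟨mem_univ _, ?_⟩)
    rw [mul_assoc, inv_mul_eq_iff_eq_mul]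
    apply ext2 <;> simp only [mul2, a1, a2, a3, a4] <;> ring) fun m hm k hk h => by
      obtain ⟨a1, a2, a3, a4⟩ := hX m hm
      obtain ⟨b1, b2, b3, b4⟩ := hX k hk
      rw [← h] at b1 b2 b3 b4
      have c1 : u m = u k := by
        by_contra c
        have c := sub_ne_zero.2 c
        exact hA (cen2.2 ⟨(mul_eq_zero.1 (by linear_combination b2 - a2)).resolve_left c,
          (mul_eq_zero.1 (by linear_combination b3 - a3)).resolve_left c, sub_eq_zero.1
          ((mul_eq_zero.1 (by linear_combination b1 - a1 - b4 + a4)).resolve_left c)⟩)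
      have c2 : u k ≠ 0 :=
        div_ne_zero (neg_ne_zero.2 (mem_filter.1 hk).2.2) (mem_filter.1 hk).2.1
      rw [c1] at a1
      exact mul_right_cancel₀ c2 (by linear_combination b1 - a1)
  have h3 : (univ.filter fun m : F => m ^ 2 + τ * m + 1 = 0).card ≤ 2 := by
    by_contra h
    obtain ⟨x, y, z, hx, hy, hz, a1, a2, a3⟩ := two_lt_card_iff.1 (not_le.1 h)
    have b1 := (mem_filter.1 hx).2
    have b2 := (mem_filter.1 hy).2
    have b3 := (mem_filter.1 hz).2
    have c1 : x + y + τ = 0 :=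
      (mul_eq_zero.1 (by linear_combination b1 - b2)).resolve_left (sub_ne_zero.2 a1)
    have c2 : x + z + τ = 0 :=
      (mul_eq_zero.1 (by linear_combination b1 - b3)).resolve_left (sub_ne_zero.2 a2)
    exact a3 (by linear_combination c1 - c2)
  have h4 := card_le_card (show (univ : Finset F) ⊆ insert (-τ / 2)
      (M ∪ univ.filter fun m : F => m ^ 2 + τ * m + 1 = 0) from fun m _ => by
    simp only [M, mem_insert, mem_union, mem_filter, mem_univ, true_and]
    by_contra h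
    push Not at h
    exact h.1 (by field_simp; linear_combination h.2.1 h.2.2))
  have h5 := card_insert_le (-τ / 2) (M ∪ univ.filter fun m : F => m ^ 2 + τ * m + 1 = 0)
  have h6 := card_union_le M (univ.filter fun m : F => m ^ 2 + τ * m + 1 = 0)
  rw [card_univ] at h4
  omega

/-- the projective special linear group of degree two -/
abbrev P2 (F : Type) [Field F] : Type := ProjectiveSpecialLinearGroup (Fin 2) F

omit [Fintype F] [DecidableEq F] in
theorem img2 [DecidableEq (P2 F)] (T : Finset (S2 F)) :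
    T.card ≤ 2 * (T.image fun A : S2 F => (A : P2 F)).card := by
  refine card_le_mul_card_image T 2 fun y _ => ?_
  by_contra h
  obtain ⟨X, Y, Z, hX, hY, hZ, h1, h2, h3⟩ := two_lt_card_iff.1 (not_le.1 h)
  have e : ∀ X Y : S2 F, (X : P2 F) = y → (Y : P2 F) = y → X ≠ Y →
      X⁻¹ * Y = mk2 (-1) 0 0 (-1) (by ring) := fun X Y a b c => by
    obtain ⟨a1, a2, a3⟩ := cen2.1 (QuotientGroup.eq.1 (a.trans b.symm))
    have a4 := det2 (X⁻¹ * Y)
    rw [a1, ← a3, zero_mul, sub_zero, mul_self_eq_one_iff] at a4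
    rcases a4 with a4 | a4
    · exact absurd (inv_mul_eq_one.1 (ext2 (by rw [a4]; simp) (by rw [a1]; simp)
        (by rw [a2]; simp) (by rw [← a3, a4]; simp))) c
    · exact ext2 (by rw [a4]; simp [mk2]) (by rw [a1]; simp [mk2]) (by rw [a2]; simp [mk2])
        (by rw [← a3, a4]; simp [mk2])
  exact h3 (mul_left_cancel ((e X Y (mem_filter.1 hX).2 (mem_filter.1 hY).2 h1).trans
    (e X Z (mem_filter.1 hX).2 (mem_filter.1 hZ).2 h2).symm))

omit [DecidableEq F] in
theorem dih2 (h2 : (2 : F) ≠ 0) {w : F} (hw : 2 = w * w) : ∃ P : Subgroup (P2 F), IsPGroup 2 P ∧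
    3 < {t : P2 F | t ∈ P ∧ orderOf t = 2}.ncard ∧ ∃ σ ∈ P, σ ≠ 1 := by
  obtain ⟨p, hp⟩ := CharP.exists F
  have : NeZero p := ⟨CharP.char_ne_zero_of_finite F p⟩
  obtain ⟨x, y, hxy⟩ := CharP.sq_add_sq F p (-1)
  push_cast at hxy
  let r : S2 F := mk2 0 (-1) 1 w (by ring)
  let s : S2 F := mk2 (x - y) (w * x) (w * y) (y - x)
    (by linear_combination -hxy + x * y * hw)
  let π := QuotientGroup.mk' (Subgroup.center (S2 F))
  have one : ∀ A : S2 F, π A = 1 ↔ A 0 1 = 0 ∧ A 1 0 = 0 ∧ A 0 0 = A 1 1 := fun A =>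
    (QuotientGroup.eq_one_iff A).trans cen2
  obtain ⟨P, a1, a2, a3, a4⟩ := dihedral (ρ := π r) (σ := π s) (by
    rw [← map_pow, one, show r ^ 4 = r * r * (r * r) by simp [pow_succ, mul_assoc]]
    simp only [mul2]
    simp [r, mk2]
    exact ⟨by linear_combination w * hw, by linear_combination -w * hw,
      by linear_combination w * w * hw⟩) (by
    rw [← map_mul, one]
    simp only [mul2]
    simp [s, mk2]
    exact ⟨by ring, by ring, by ring⟩) (by
    rw [← map_mul, ← map_mul]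
    congr 1
    apply ext2 <;> simp only [mul2] <;> simp [r, s, mk2]
    · ring
    · ring
    · ring) (by
    rw [← map_mul, Ne, one]
    simp only [mul2]
    simp [r, mk2]
    rintro rfl
    simp [h2] at hw)
  exact ⟨P, a1, a2, _, a3, a4⟩

theorem psl2 : ∃ N : ℕ, ∀ (F : Type) [Field F] [Fintype F], N ≤ Fintype.card F →
    (Fintype.card F % 8 = 1 ∨ Fintype.card F % 8 = 7) → HasRoot (P2 F) := by
  classical
  obtain ⟨D, H⟩ := criterion' 4
  refine ⟨32 * D + 20, fun F _ _ hq h8 => ?_⟩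
  obtain ⟨q, hq'⟩ : ∃ q, q + 1 = Fintype.card F := ⟨Fintype.card F - 1, by omega⟩
  have := Fintype.ofFinite (P2 F)
  have h2 : (2 : F) ≠ 0 := Ring.two_ne_zero fun h => by
    have := FiniteField.even_card_iff_char_two.1 h
    omega
  obtain ⟨w, hw⟩ : IsSquare (2 : F) := FiniteField.isSquare_two_iff.2 (by omega)
  obtain ⟨P, p1, p2, σ, p3, p4⟩ := dih2 h2 hw
  have hs := ProjectiveSpecialLinearGroup.rank_two_simple (F := F) (by
    rw [Nat.card_eq_fintype_card]; omega)
  have n1 : (q + 1) * ((q + 1) * q) ≤ 2 * Fintype.card (P2 F) := by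
    have a1 := card2 (F := F)
    have a2 := img2 (F := F) univ
    have a3 : (univ.image fun A : S2 F => (A : P2 F)).card ≤ Fintype.card (P2 F) :=
      card_le_univ _
    rw [← hq', Nat.add_sub_cancel] at a1
    rw [card_univ] at a2
    omega
  have n0 : q ≤ 2 * Fintype.card (P2 F) :=
    ((Nat.le_mul_of_pos_left q (by omega)).trans (Nat.le_mul_of_pos_left _ (by omega))).trans n1
  have n2 : ∀ g : P2 F, g ≠ 1 → zc g ≤ 4 * (q + 1) ∧ 8 ≤ zc g := fun g hg => by
    obtain ⟨A, rfl⟩ := QuotientGroup.mk_surjective g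
    have hA := fun h => hg ((QuotientGroup.eq_one_iff A).2 h)
    have a1 := zc_le2 hA
    have a2 := zc_ge2 h2 hA
    have a3 := img2 (cl A)
    have a4 := card_le_card (show (cl A).image (fun A : S2 F => (A : P2 F)) ⊆ cl (A : P2 F) from
      fun y hy => by
        obtain ⟨B, hB, rfl⟩ := mem_image.1 hy
        obtain ⟨e, rfl⟩ := mem_cl.1 hB
        exact cj_mem_cl (A : P2 F) e)
    have a5 := img2 (univ.filter fun e : S2 F => e⁻¹ * A * e = A)
    have a6 := card_le_card (show (univ.filter fun e : S2 F => e⁻¹ * A * e = A).image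
        (fun A : S2 F => (A : P2 F)) ⊆ univ.filter fun e : P2 F => e⁻¹ * A * e = A from
      fun y hy => by
        obtain ⟨B, hB, rfl⟩ := mem_image.1 hy
        exact mem_filter.2 ⟨mem_univ _, congrArg (fun A : S2 F => (A : P2 F)) (mem_filter.1 hB).2⟩)
    have a7 := zc_mul A
    have a8 := zc_mul (A : P2 F)
    have a9 := Fintype.card_le_of_surjective _
      (QuotientGroup.mk_surjective (s := Subgroup.center (S2 F)))
    change zc A ≤ _ at a5
    change _ ≤ zc (A : P2 F) at a6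
    refine ⟨Nat.le_of_mul_le_mul_right ?_ (card_pos.2 ⟨_, self_mem_cl (A : P2 F)⟩), by omega⟩
    calc _ ≤ zc A * (cl A).card := by rw [a7, a8]; convert a9
      _ ≤ 2 * (q + 1) * (2 * (cl (A : P2 F)).card) := Nat.mul_le_mul (by omega) (by omega)
      _ = _ := by ring
  obtain ⟨a, a0, a1⟩ : ∃ a : F, a ≠ 0 ∧ a ^ 2 ≠ 1 := ⟨w, by rintro rfl; simp [h2] at hw, fun h =>
    one_ne_zero (α := F) (by linear_combination hw + h)⟩
  refine H (P2 F) (fun N hN h => ?_) (CW.map (cw2 a a0 a1) (QuotientGroup.mk' _)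
    (QuotientGroup.mk'_surjective _)) (fun g => ?_) P p1 p2 fun g hg => ?_
  · rw [(hN.eq_bot_or_eq_top).resolve_right h, Subgroup.index_bot, Nat.card_eq_fintype_card]
    omega
  · rw [← zc_eq]
    by_cases hg : g = 1
    · have := zc_mul (1 : P2 F)
      rw [cl_one, card_singleton] at this
      rw [hg]; omega
    · exact (n2 g hg).2
  · have b1 : Nat.card (Subgroup.centralizer (P : Set (P2 F))) ≤ zc σ := by
      rw [zc_eq]
      exact Subgroup.card_le_of_le (Subgroup.centralizer_le (by simpa using p3))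
    have b2 := (n2 σ p4).1
    have b3 := zc_mul g
    have b4 := Nat.mul_le_mul_right (cl g).card (n2 g hg).1
    rw [← coe_cl, Set.ncard_coe_finset]
    refine (Nat.mul_le_mul_left D (b1.trans b2)).trans (Nat.le_of_mul_le_mul_left ?_
      (show 0 < 8 * (q + 1) by omega))
    have b5 : (q + 1) * ((q + 1) * (32 * D)) ≤ (q + 1) * ((q + 1) * q) :=
      Nat.mul_le_mul_left _ (Nat.mul_le_mul_left _ (by omega))
    nlinarith

end Pool.Agent.Lib.MP_2c654c_co.Syl
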